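import Pool.Agent.D0H69.TW.Chn1

/-!
# Project TW, module 18 (CHN), part 2
-/

set_option autoImplicit false

open Finset Filter Topology

namespace Pool.Agent.D0H69.TW

open Pool.Agent.H387R2.MB Pool.Agent.H387R2 Pool.Agent.H378R2

/-- the two shifts -/
def R2 : Finset ℕ := {0, 2}

lemma card_R2 : R2.card = 2 := rfl

lemma locT_R2 {p : ℕ} (hp : p.Prime) : (1 / 3 : ℝ) ≤ Uni.locT R2 p := by
  have hp0 : (0 : ℝ) < p := by exact_mod_cast hp.pos
  have h2 : (2 : ℝ) ≤ p := by exact_mod_cast hp.two_le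
  have hx : 1 / (p : ℝ) ≤ 1 / 2 := one_div_le_one_div_of_le (by norm_num) h2
  have hx0 : 0 < 1 / (p : ℝ) := by positivity
  have h1 : (1 / 3 : ℝ) ≤ 1 - (Uni.nuT R2 p : ℝ) / p := by
    rcases eq_or_ne p 2 with rfl | hne
    · have e : Uni.nuT R2 2 = 1 := by decide
      rw [e]; norm_num
    · have h3 : (3 : ℝ) ≤ p := by
        have : 3 ≤ p := by have := hp.two_le; omega
        exact_mod_cast this
      have h4 : (Uni.nuT R2 p : ℝ) ≤ 2 := by
        have := Uni.nuT_le R2 p
        rw [card_R2] at this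
        exact_mod_cast this
      have h5 : (Uni.nuT R2 p : ℝ) / p ≤ 2 / 3 := by
        rw [div_le_div_iff₀ hp0 (by norm_num)]
        nlinarith
      linarith
  unfold Uni.locT
  rw [le_div_iff₀ (pow_pos (by linarith) _)]
  have h3 : (1 - 1 / (p : ℝ)) ^ R2.card ≤ 1 := pow_le_one₀ (by linarith) (by linarith)
  nlinarith

lemma prod_loc2 {y : ℕ} :
    (1 / 3 : ℝ) ^ 9 * (1 / 2) ≤ ∏ p ∈ (y + 1).primesBelow, Uni.locT R2 p := by
  classical
  rw [← prod_filter_mul_prod_filter_not (y + 1).primesBelow (fun p => p ≤ 8)]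
  have h1 : (1 / 3 : ℝ) ^ 9 ≤ ∏ p ∈ (y + 1).primesBelow.filter (fun p => p ≤ 8), Uni.locT R2 p := by
    set S := (y + 1).primesBelow.filter (fun p => p ≤ 8) with hS
    have hc : S.card ≤ 9 := by
      have : S ⊆ range 9 := by
        intro p hp
        rw [hS, mem_filter] at hp
        rw [mem_range]
        omega
      exact (card_le_card this).trans (by simp)
    calc (1 / 3 : ℝ) ^ 9 ≤ (1 / 3) ^ S.card := pow_le_pow_of_le_one (by norm_num) (by norm_num) hc
      _ = ∏ _p ∈ S, (1 / 3 : ℝ) := by rw [prod_const]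
      _ ≤ _ := by
          apply Finset.prod_le_prod
          · intro _ _; norm_num
          · intro p hp
            rw [hS, mem_filter] at hp
            exact locT_R2 (Nat.prime_of_mem_primesBelow hp.1)
  have h2 : (1 / 2 : ℝ) ≤ ∏ p ∈ (y + 1).primesBelow.filter (fun p => ¬ p ≤ 8), Uni.locT R2 p := by
    set S := (y + 1).primesBelow.filter (fun p => ¬ p ≤ 8) with hS
    have hbig : ∀ p ∈ S, 8 < p := by
      intro p hp
      rw [hS, mem_filter] at hp
      omega
    have hpr : ∀ p ∈ S, p.Prime := by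
      intro p hp
      rw [hS, mem_filter] at hp
      exact Nat.prime_of_mem_primesBelow hp.1
    have hsum : ∑ p ∈ S, (2 : ℝ) ^ 2 * ((p : ℝ) ^ 2)⁻¹ ≤ 1 / 2 := by
      rw [← mul_sum]
      have h3 := Uni.sum_inv_sq_gt (y := 8) (by norm_num) S hbig
      push_cast at h3
      linarith
    have h3 := one_sub_sum_le S (fun p : ℕ => (2 : ℝ) ^ 2 * ((p : ℝ) ^ 2)⁻¹)
      (fun p _ => by positivity) (fun p hp => by
        have h3 : (2 : ℝ) ≤ (p : ℝ) := by exact_mod_cast (hpr p hp).two_le
        have h4 : (0:ℝ) < (p : ℝ) := by exact_mod_cast (hpr p hp).pos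
        rw [← div_eq_mul_inv, div_le_one (by positivity)]
        exact pow_le_pow_left₀ (by norm_num) h3 2)
    have h4 : ∏ p ∈ S, (1 - (2 : ℝ) ^ 2 * ((p : ℝ) ^ 2)⁻¹) ≤ ∏ p ∈ S, Uni.locT R2 p := by
      apply Finset.prod_le_prod
      · intro p hp
        have h3 : (2 : ℝ) ≤ (p : ℝ) := by exact_mod_cast (hpr p hp).two_le
        have h4 : (0:ℝ) < (p : ℝ) := by exact_mod_cast (hpr p hp).pos
        rw [sub_nonneg, ← div_eq_mul_inv, div_le_one (by positivity)]
        exact pow_le_pow_left₀ (by norm_num) h3 2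
      · intro p hp
        have h5 := Uni.locT_ge R2 (hpr p hp).two_le (by
          rw [card_R2]; exact (hpr p hp).two_le)
        rw [card_R2] at h5
        exact_mod_cast h5
    linarith
  exact mul_le_mul h1 h2 (by norm_num) (le_trans (by positivity) h1)

lemma gT_ge2 {y : ℕ} :
    (1 / 3 : ℝ) ^ 9 * (1 / 2) * rho y ^ 2 * Uni.WW y ≤ Uni.gT (Uni.WW y) R2 := by
  have h1 := Uni.sy_en R2 y
  have h2 : Pool.Agent.H386R2.HL.sy (Uni.en R2) y =
      ∏ p ∈ (y + 1).primesBelow, Uni.locT R2 p := by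
    unfold Pool.Agent.H386R2.HL.sy
    apply prod_congr rfl
    intro p _
    rw [Uni.loc_en]
  rw [h2, card_R2] at h1
  have h3 := prod_loc2 (y := y)
  rw [h1] at h3
  have hW : (0 : ℝ) < Uni.WW y := by exact_mod_cast Uni.WW_pos y
  have hφ : (0:ℝ) < (Uni.WW y).totient := by exact_mod_cast Nat.totient_pos.2 (Uni.WW_pos y)
  have hr : (Uni.WW y : ℝ) / (Uni.WW y).totient = (rho y)⁻¹ := by
    unfold rho
    rw [inv_div]
  rw [hr, inv_pow] at h3
  have hρ : 0 < rho y ^ 2 := pow_pos (rho_pos y) _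
  rw [inv_mul_eq_div, le_div_iff₀ hρ, le_div_iff₀ hW] at h3
  exact h3

/-- the shifts as a function -/
def t2 : Fin (1 + 1) → ℕ := ![2, 0]

lemma t2_mem (j : Fin (1 + 1)) : t2 j ∈ R2 := by
  fin_cases j <;> decide

lemma t2_inj : Function.Injective t2 := by
  intro i j h
  fin_cases i <;> fin_cases j <;> first | rfl | exact absurd h (by decide)

theorem chn : Pool.Agent.D0H11.TW.S_CHN := by
  classical
  obtain ⟨δ, hδ, _, c0, hc0, z, hpos⟩ := pos3
  refine ⟨δ / 400, (1 / 3 : ℝ) ^ 9 * c0 / 160, 4, by positivity, by positivity, by norm_num, ?_⟩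
  have tN : Tendsto (fun N : ℕ => (N : ℝ)) atTop atTop := tendsto_natCast_atTop_atTop
  have tL : Tendsto (fun N : ℕ => Real.log (N : ℝ)) atTop atTop := Real.tendsto_log_atTop.comp tN
  have tX : Tendsto (fun N : ℕ => (N : ℝ) / 4) atTop atTop := tN.atTop_div_const (by norm_num)
  have hM : ∀ᶠ N : ℕ in atTop, ∀ a ∈ R2, a ≤ ⌊Real.log N ^ (1 : ℝ)⌋₊ := by
    have h1 : ∀ᶠ N : ℕ in atTop, ((R2.sup id : ℕ) : ℝ) ≤ Real.log N := tL.eventually_ge_atTop _
    filter_upwards [h1] with N h1 a ha
    apply Nat.le_floor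
    rw [Real.rpow_one]
    refine le_trans ?_ h1
    exact_mod_cast le_sup (f := id) ha
  filter_upwards [tX.eventually hpos, ec_eventually 2 z 1 hδ, M_le_sqrt 1, hM, tX.eventually MPhi_big,
    (LL_tendsto.comp tX).eventually_ge_atTop 1, eventually_ge_atTop 16, tL.eventually_ge_atTop 1]
    with N h1 hEC hMs h2 h3 h4 h5 h6
  set X := (N : ℝ) / 4 with hX
  set y := ⌊Real.log (Real.log (N:ℝ))⌋₊ with hy
  set W := Uni.WW y with hW
  have hN0 : (16 : ℝ) ≤ N := by exact_mod_cast h5
  have hX0 : 0 < X := by rw [hX]; linarith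
  have hL0 : 0 < LL X := by
    have : 1 ≤ LL X := h4
    linarith
  have hWp : (0 : ℝ) < W := by exact_mod_cast Uni.WW_pos y
  obtain ⟨hCS, hs, hB1, hB2⟩ := hEC R2 (by rw [card_R2]) h2
  have hBE : 0 < BE (ER y R2) := BE_pos hCS.gs.pr
  set G := (range W).filter (fun m => ∀ t ∈ R2, Nat.Coprime W (m + t)) with hG
  have hGc : (G.card : ℝ) = Uni.gT W R2 := rfl
  set ind : ℕ → ℝ := fun n => if (n + t2 0).Prime ∧ ∀ j, Rg δ X (n + t2 j) then 1 else 0 with hind
  have hind0 : ∀ n, 0 ≤ ind n := by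
    intro n
    simp only [hind]
    split_ifs <;> norm_num
  -- sum over the classes
  have s1 : (G.card : ℝ) * (c0 * UU 2 X y) ≤ ∑ b ∈ G, ∑ n ∈ Icc 1 ⌊3 * X⌋₊, nu X W b n * ind n := by
    rw [← nsmul_eq_mul, ← sum_const]
    apply sum_le_sum
    intro b hb
    rw [hG, mem_filter] at hb
    have k1 := h1 W (ER y R2) b t2 hCS (WW_sqf y) (DT_ER t2 t2_mem t2_inj)
      (fun j => (hb.2 _ (t2_mem j)).symm) (fun j => by
        refine le_trans ?_ hMs
        exact_mod_cast h2 _ (t2_mem j)) hs (by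
        have e : ((Uni.WW y).totient : ℝ) = Uni.WW y * rho y := by
          unfold rho
          have : (Uni.WW y : ℝ) ≠ 0 := by exact_mod_cast (Uni.WW_pos y).ne'
          field_simp
        rw [hW, e]
        have : (0:ℝ) < Uni.WW y := by exact_mod_cast Uni.WW_pos y
        nlinarith)
    have k2 := mul_le_mul_of_nonneg_left (UU_le_QQ (J := 2) hL0 hBE hB1) hc0.le
    exact k2.trans k1
  have s2 : ∑ b ∈ G, ∑ n ∈ Icc 1 ⌊3 * X⌋₊, nu X W b n * ind n ≤
      ∑ n ∈ Icc 1 ⌊3 * X⌋₊, Phi (n / X) * ind n := by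
    rw [sum_comm]
    apply sum_le_sum
    intro n _
    rw [← sum_mul]
    apply mul_le_mul_of_nonneg_right _ (hind0 n)
    have e1 : ∑ b ∈ G, nu X W b n ≤ ∑ b ∈ range W, nu X W b n :=
      sum_le_sum_of_subset_of_nonneg (filter_subset _ _) fun b _ _ => nu_nonneg _ _ _ _
    refine e1.trans ?_
    have hnW : n % W ∈ range W := mem_range.2 (Nat.mod_lt _ (Uni.WW_pos y))
    rw [sum_eq_single_of_mem (n % W) hnW]
    · unfold nu
      rw [if_pos (Nat.mod_modEq n W).symm]
    · intro b hb hne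
      unfold nu
      rw [if_neg]
      intro hmod
      apply hne
      have : n % W = b % W := hmod
      rw [this, Nat.mod_eq_of_lt (mem_range.1 hb)]
  set A := (Icc 3 N).filter (fun p => N ≤ 4 * p ∧ p.Prime ∧
      ∀ l : ℕ, l.Prime → (l : ℝ) ≤ (N : ℝ) ^ (δ / 400) → ¬ l ∣ p - 2) with hA
  have s3 : ∑ n ∈ Icc 1 ⌊3 * X⌋₊, Phi (n / X) * ind n ≤ (A.card : ℝ) := by
    have e1 : ∀ n ∈ Icc 1 ⌊3 * X⌋₊, Phi (n / X) * ind n ≤ if n + 2 ∈ A then 1 else 0 := by
      intro n hn
      rw [mem_Icc] at hn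
      by_cases hP : Phi (n / X) = 0
      · rw [hP, zero_mul]
        split_ifs <;> norm_num
      by_cases hi : (n + t2 0).Prime ∧ ∀ j, Rg δ X (n + t2 j)
      · have hn0 : (0 : ℝ) ≤ n / X := by positivity
        have g1 : 1 < (n : ℝ) / X := by
          by_contra hcon
          push Not at hcon
          exact hP (Phi_eq_zero_of_le hn0 hcon)
        have g2 : X < n := by rwa [lt_div_iff₀ hX0, one_mul] at g1
        have hmem : n + 2 ∈ A := by
          rw [hA, mem_filter, mem_Icc]
          refine ⟨⟨by omega, ?_⟩, ?_, hi.1, ?_⟩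
          · have g3 : (n : ℝ) ≤ 3 * X := (Nat.le_floor_iff (by positivity)).1 hn.2
            have : ((n + 2 : ℕ) : ℝ) ≤ N := by
              push_cast
              rw [hX] at g3
              linarith
            exact_mod_cast this
          · have : (N : ℝ) ≤ 4 * ((n + 2 : ℕ) : ℝ) := by
              push_cast
              rw [hX] at g2
              linarith
            exact_mod_cast this
          · intro l hl hle hdvd
            refine hi.2 1 l (mem_PS.2 ⟨hl, hle.trans ?_⟩) ?_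
            · have g3 : Real.log N / 2 ≤ Real.log X := by
                have e1 : Real.log N / 2 = Real.log (Real.sqrt N) := by
                  rw [Real.log_sqrt (by positivity)]
                rw [e1]
                apply Real.log_le_log (by positivity)
                rw [Real.sqrt_le_left (by positivity), hX]
                nlinarith
              rw [Real.rpow_def_of_pos (by linarith)]
              apply Real.exp_le_exp.2
              unfold LL
              nlinarith
            · have e : n + t2 1 = n + 2 - 2 := by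
                show n + 0 = n + 2 - 2
                omega
              rw [e]
              exact hdvd
        rw [if_pos hmem]
        simp only [hind]
        rw [if_pos hi, mul_one]
        exact Phi_le_one _
      · simp only [hind]
        rw [if_neg hi, mul_zero]
        split_ifs <;> norm_num
    refine (sum_le_sum e1).trans ?_
    rw [← sum_filter, sum_const, nsmul_eq_mul, mul_one]
    have hinj : Set.InjOn (fun n : ℕ => n + 2) ((Icc 1 ⌊3 * X⌋₊).filter (fun n => n + 2 ∈ A) : Finset ℕ) :=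
      fun a _ b _ h => by
        have : a + 2 = b + 2 := h
        omega
    exact_mod_cast card_le_card_of_injOn (fun n : ℕ => n + 2) (fun n hn => (mem_filter.1 hn).2) hinj
  have s4 := (s1.trans s2).trans s3
  refine le_trans ?_ (s4.trans (le_of_eq ?_))
  · -- the lower bound
    have g1 := gT_ge2 (y := y)
    have g2 : (1 / 3 : ℝ) ^ 9 * (1 / 2) * rho y ^ 2 * W ≤ G.card := by rw [hGc]; exact g1
    have hρ := rho_pos y
    have hρK : 0 < rho y ^ 2 := pow_pos hρ _
    have hLLK : 0 < LL X ^ 2 := pow_pos hL0 _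
    have hlogK : 0 < Real.log N ^ 2 := pow_pos (by linarith) _
    have hU : 0 ≤ c0 * UU 2 X y := mul_nonneg hc0.le (UU_nonneg 2 hL0.le y)
    have g3 := mul_le_mul_of_nonneg_right g2 hU
    refine le_trans ?_ g3
    have g4 : (1 / 3 : ℝ) ^ 9 * (1 / 2) * rho y ^ 2 * W * (c0 * UU 2 X y) =
        (1 / 3 : ℝ) ^ 9 * c0 / 2 * MPhi X / LL X ^ 2 := by
      unfold UU
      rw [mul_pow, ← hW]
      field_simp
    rw [g4]
    have g5 : LL X ^ 2 ≤ Real.log N ^ 2 := by
      apply pow_le_pow_left₀ hL0.le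
      unfold LL
      have e1 : Real.log X ≤ Real.log N := by
        apply Real.log_le_log hX0
        rw [hX]; linarith
      have e2 : 0 ≤ Real.log X := by
        have : 0 < Real.log X / 200 := hL0
        linarith
      linarith
    calc (1 / 3 : ℝ) ^ 9 * c0 / 160 * N / Real.log N ^ 2 ≤ (1 / 3 : ℝ) ^ 9 * c0 / 160 * N / LL X ^ 2 := by gcongr
      _ ≤ (1 / 3 : ℝ) ^ 9 * c0 / 2 * MPhi X / LL X ^ 2 := by
          apply div_le_div_of_nonneg_right _ hLLK.le
          have e1 : X / 20 ≤ MPhi X := h3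
          rw [hX] at e1 ⊢
          have e2 : 0 < (1 / 3 : ℝ) ^ 9 * c0 := by positivity
          nlinarith
  · rfl

end Pool.Agent.D0H69.TW
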