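import Pool.Agent.D0H11.TW.Stm
import Pool.Agent.H387R2.MB14

/-!
# Project TW, module 17 (MAY)
-/

set_option autoImplicit false

open Finset Filter Topology

namespace Pool.Agent.D0H69.TW

open Pool.Agent.H387R2.MB Pool.Agent.H387R2 Pool.Agent.H378R2

/-- the shifts: `K` multiples of `D!` -/
def RR (K D : ℕ) : Finset ℕ := (Icc 1 K).image (fun j => j * D.factorial)

lemma card_RR (K D : ℕ) : (RR K D).card = K := by
  unfold RR
  rw [card_image_of_injective, Nat.card_Icc]
  · omega
  · intro a b h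
    exact Nat.eq_of_mul_eq_mul_right D.factorial_pos h

lemma nuT_RR {K D p : ℕ} (hp : p.Prime) (hpD : p ≤ D) : Uni.nuT (RR K D) p ≤ 1 := by
  unfold Uni.nuT
  rw [card_le_one]
  intro a ha b hb
  rw [mem_image] at ha hb
  obtain ⟨x, hx, rfl⟩ := ha
  obtain ⟨z, hz, rfl⟩ := hb
  unfold RR at hx hz
  rw [mem_image] at hx hz
  obtain ⟨i, _, rfl⟩ := hx
  obtain ⟨j, _, rfl⟩ := hz
  have h : p ∣ D.factorial := (Nat.Prime.dvd_factorial hp).2 hpD
  rw [Nat.mod_eq_zero_of_dvd (h.mul_left i), Nat.mod_eq_zero_of_dvd (h.mul_left j)]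

lemma prod_loc {K D y : ℕ} (hK : 1 ≤ K) (hD : 2 * K ^ 2 ≤ D) :
    (1 / 2 : ℝ) ≤ ∏ p ∈ (y + 1).primesBelow, Uni.locT (RR K D) p := by
  classical
  have hKD : K ≤ D := by
    have : K ≤ K ^ 2 := Nat.le_self_pow (by norm_num) _
    omega
  have hD1 : 1 ≤ D := hK.trans hKD
  rw [← prod_filter_mul_prod_filter_not (y + 1).primesBelow (fun p => p ≤ D)]
  have h1 : (1 : ℝ) ≤ ∏ p ∈ (y + 1).primesBelow.filter (fun p => p ≤ D), Uni.locT (RR K D) p := by
    rw [← Finset.prod_const_one (s := (y + 1).primesBelow.filter (fun p => p ≤ D))]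
    apply Finset.prod_le_prod
    · intro _ _; norm_num
    · intro p hp
      rw [mem_filter] at hp
      have hpp := Nat.prime_of_mem_primesBelow hp.1
      unfold Uni.locT
      rw [card_RR]
      have h2 : (2 : ℝ) ≤ p := by exact_mod_cast hpp.two_le
      have hx : 1 / (p : ℝ) ≤ 1 / 2 := one_div_le_one_div_of_le (by norm_num) h2
      have hx0 : 0 < 1 / (p : ℝ) := by positivity
      rw [one_le_div (pow_pos (by linarith) _)]
      have h3 : (1 - 1 / (p : ℝ)) ^ K ≤ 1 - 1 / (p : ℝ) := by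
        calc (1 - 1 / (p : ℝ)) ^ K ≤ (1 - 1 / (p : ℝ)) ^ 1 :=
              pow_le_pow_of_le_one (by linarith) (by linarith) hK
          _ = _ := pow_one _
      refine h3.trans ?_
      have h4 : (Uni.nuT (RR K D) p : ℝ) ≤ 1 := by exact_mod_cast nuT_RR hpp hp.2
      have : (Uni.nuT (RR K D) p : ℝ) / p ≤ 1 / p := by gcongr
      linarith
  have h2 : (1 / 2 : ℝ) ≤ ∏ p ∈ (y + 1).primesBelow.filter (fun p => ¬ p ≤ D), Uni.locT (RR K D) p := by
    set S := (y + 1).primesBelow.filter (fun p => ¬ p ≤ D) with hS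
    have hbig : ∀ p ∈ S, D < p := by
      intro p hp
      rw [hS, mem_filter] at hp
      omega
    have hpr : ∀ p ∈ S, p.Prime := by
      intro p hp
      rw [hS, mem_filter] at hp
      exact Nat.prime_of_mem_primesBelow hp.1
    have hsum : ∑ p ∈ S, (K : ℝ) ^ 2 * ((p : ℝ) ^ 2)⁻¹ ≤ 1 / 2 := by
      rw [← mul_sum]
      have h3 := Uni.sum_inv_sq_gt hD1 S hbig
      have hD0 : (0 : ℝ) < D := by exact_mod_cast hD1
      calc (K : ℝ) ^ 2 * ∑ p ∈ S, ((p : ℝ) ^ 2)⁻¹ ≤ (K : ℝ) ^ 2 * (1 / D) := by gcongr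
        _ ≤ 1 / 2 := by
            rw [mul_one_div, div_le_div_iff₀ hD0 (by norm_num)]
            have : (2 * K ^ 2 : ℝ) ≤ D := by exact_mod_cast hD
            linarith
    have h3 := one_sub_sum_le S (fun p : ℕ => (K : ℝ) ^ 2 * ((p : ℝ) ^ 2)⁻¹)
      (fun p _ => by positivity) (fun p hp => by
        have h3 : (K : ℝ) ≤ (p : ℝ) := by exact_mod_cast (hKD.trans (hbig p hp).le)
        have h4 : (0:ℝ) < (p : ℝ) := by exact_mod_cast (hpr p hp).pos
        rw [← div_eq_mul_inv, div_le_one (by positivity)]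
        exact pow_le_pow_left₀ (Nat.cast_nonneg _) h3 2)
    have h4 : ∏ p ∈ S, (1 - (K : ℝ) ^ 2 * ((p : ℝ) ^ 2)⁻¹) ≤ ∏ p ∈ S, Uni.locT (RR K D) p := by
      apply Finset.prod_le_prod
      · intro p hp
        have h3 : (K : ℝ) ≤ (p : ℝ) := by exact_mod_cast (hKD.trans (hbig p hp).le)
        have h4 : (0:ℝ) < (p : ℝ) := by exact_mod_cast (hpr p hp).pos
        rw [sub_nonneg, ← div_eq_mul_inv, div_le_one (by positivity)]
        exact pow_le_pow_left₀ (Nat.cast_nonneg _) h3 2
      · intro p hp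
        have h5 := Uni.locT_ge (RR K D) (hpr p hp).two_le (by
          rw [card_RR]; exact hKD.trans (hbig p hp).le)
        rw [card_RR] at h5
        exact h5
    linarith
  calc (1 / 2 : ℝ) = 1 * (1 / 2) := by norm_num
    _ ≤ _ := mul_le_mul h1 h2 (by norm_num) (by linarith)

lemma gT_ge {K D y : ℕ} (hK : 1 ≤ K) (hD : 2 * K ^ 2 ≤ D) :
    rho y ^ K / 2 * Uni.WW y ≤ Uni.gT (Uni.WW y) (RR K D) := by
  have h1 := Uni.sy_en (RR K D) y
  have h2 : Pool.Agent.H386R2.HL.sy (Uni.en (RR K D)) y =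
      ∏ p ∈ (y + 1).primesBelow, Uni.locT (RR K D) p := by
    unfold Pool.Agent.H386R2.HL.sy
    apply prod_congr rfl
    intro p _
    rw [Uni.loc_en]
  rw [h2, card_RR] at h1
  have h3 := prod_loc (y := y) hK hD
  rw [h1] at h3
  have hW : (0 : ℝ) < Uni.WW y := by exact_mod_cast Uni.WW_pos y
  have hφ : (0:ℝ) < (Uni.WW y).totient := by exact_mod_cast Nat.totient_pos.2 (Uni.WW_pos y)
  have hr : (Uni.WW y : ℝ) / (Uni.WW y).totient = (rho y)⁻¹ := by
    unfold rho
    rw [inv_div]
  rw [hr, inv_pow] at h3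
  have hρ : 0 < rho y ^ K := pow_pos (rho_pos y) _
  rw [inv_mul_eq_div, le_div_iff₀ hρ, le_div_iff₀ hW] at h3
  linarith

theorem may : Pool.Agent.D0H11.TW.S_MAY := by
  classical
  intro k
  obtain ⟨K, hK, δ, hδ, c0, hc0, hlow⟩ := low_eventually k
  set D := 2 * K ^ 2 with hD
  set R := RR K D with hR
  have hRK : R.card = K := card_RR K D
  refine ⟨R, δ / 400, c0 / 160, 4, ?_, by positivity, by positivity, by norm_num, ?_⟩
  · rw [← card_pos, hRK]; exact hK
  have tN : Tendsto (fun N : ℕ => (N : ℝ)) atTop atTop := tendsto_natCast_atTop_atTop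
  have tL : Tendsto (fun N : ℕ => Real.log (N : ℝ)) atTop atTop := Real.tendsto_log_atTop.comp tN
  have tX : Tendsto (fun N : ℕ => (N : ℝ) / 4) atTop atTop := tN.atTop_div_const (by norm_num)
  have hM : ∀ᶠ N : ℕ in atTop, ∀ a ∈ R, a ≤ ⌊Real.log N ^ (1 : ℝ)⌋₊ := by
    have h1 : ∀ᶠ N : ℕ in atTop, ((R.sup id : ℕ) : ℝ) ≤ Real.log N := tL.eventually_ge_atTop _
    filter_upwards [h1] with N h1 a ha
    apply Nat.le_floor
    rw [Real.rpow_one]
    refine le_trans ?_ h1
    exact_mod_cast le_sup (f := id) ha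
  filter_upwards [hlow 1, hM, tX.eventually MPhi_big, (LL_tendsto.comp tX).eventually_ge_atTop 1,
    eventually_ge_atTop 16, tL.eventually_ge_atTop 1] with N h1 h2 h3 h4 h5 h6
  set X := (N : ℝ) / 4 with hX
  set y := ⌊Real.log (Real.log (N:ℝ))⌋₊ with hy
  set W := Uni.WW y with hW
  have hN0 : (16 : ℝ) ≤ N := by exact_mod_cast h5
  have hX0 : 0 < X := by rw [hX]; linarith
  have hL0 : 0 < LL X := by
    have : 1 ≤ LL X := h4
    linarith
  have hWp : (0 : ℝ) < W := by exact_mod_cast Uni.WW_pos y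
  set G := (range W).filter (fun m => ∀ t ∈ R, Nat.Coprime W (m + t)) with hG
  have hGc : (G.card : ℝ) = Uni.gT W R := rfl
  set ind : ℕ → ℝ := fun n => if k + 1 ≤ (R.filter (fun a => (n + a).Prime)).card ∧
    ∀ a ∈ R, Rg δ X (n + a) then 1 else 0 with hind
  have hind0 : ∀ n, 0 ≤ ind n := by
    intro n
    simp only [hind]
    split_ifs <;> norm_num
  -- sum over the classes
  have s1 : (G.card : ℝ) * (c0 * UU K X y) ≤ ∑ b ∈ G, ∑ n ∈ Icc 1 ⌊3 * X⌋₊, nu X W b n * ind n := by
    rw [← nsmul_eq_mul, ← sum_const]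
    apply sum_le_sum
    intro b hb
    rw [hG, mem_filter] at hb
    exact h1 b R hRK h2 hb.2
  have s2 : ∑ b ∈ G, ∑ n ∈ Icc 1 ⌊3 * X⌋₊, nu X W b n * ind n ≤
      ∑ n ∈ Icc 1 ⌊3 * X⌋₊, Phi (n / X) * ind n := by
    rw [sum_comm]
    apply sum_le_sum
    intro n _
    rw [← sum_mul]
    apply mul_le_mul_of_nonneg_right _ (hind0 n)
    have e1 : ∑ b ∈ G, nu X W b n ≤ ∑ b ∈ range W, nu X W b n :=
      sum_le_sum_of_subset_of_nonneg (filter_subset _ _) fun b _ _ => nu_nonneg _ _ _ _
    refine e1.trans ?_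
    have hnW : n % W ∈ range W := mem_range.2 (Nat.mod_lt _ (Uni.WW_pos y))
    rw [sum_eq_single_of_mem (n % W) hnW]
    · unfold nu
      rw [if_pos (Nat.mod_modEq n W).symm]
    · intro b hb hne
      unfold nu
      rw [if_neg]
      intro hmod
      apply hne
      have : n % W = b % W := hmod
      rw [this, Nat.mod_eq_of_lt (mem_range.1 hb)]
  set A := (Icc 1 N).filter (fun n => N ≤ 4 * n ∧ k + 1 ≤ (R.filter (fun a => (n + a).Prime)).card ∧
      ∀ a ∈ R, ∀ l : ℕ, l.Prime → (l : ℝ) ≤ (N : ℝ) ^ (δ / 400) → ¬ l ∣ n + a) with hA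
  have s3 : ∑ n ∈ Icc 1 ⌊3 * X⌋₊, Phi (n / X) * ind n ≤ (A.card : ℝ) := by
    have e1 : ∀ n ∈ Icc 1 ⌊3 * X⌋₊, Phi (n / X) * ind n ≤ if n ∈ A then 1 else 0 := by
      intro n hn
      rw [mem_Icc] at hn
      by_cases hP : Phi (n / X) = 0
      · rw [hP, zero_mul]
        split_ifs <;> norm_num
      by_cases hi : k + 1 ≤ (R.filter (fun a => (n + a).Prime)).card ∧ ∀ a ∈ R, Rg δ X (n + a)
      · have hn0 : (0 : ℝ) ≤ n / X := by positivity
        have g1 : 1 < (n : ℝ) / X := by
          by_contra hcon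
          push Not at hcon
          exact hP (Phi_eq_zero_of_le hn0 hcon)
        have g2 : X < n := by rwa [lt_div_iff₀ hX0, one_mul] at g1
        have hmem : n ∈ A := by
          rw [hA, mem_filter, mem_Icc]
          refine ⟨⟨hn.1, ?_⟩, ?_, hi.1, ?_⟩
          · have g3 : (n : ℝ) ≤ 3 * X := (Nat.le_floor_iff (by positivity)).1 hn.2
            have : (n : ℝ) ≤ N := by rw [hX] at g3; linarith
            exact_mod_cast this
          · have : (N : ℝ) ≤ 4 * n := by rw [hX] at g2; linarith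
            exact_mod_cast this
          · intro a ha l hl hle hdvd
            refine hi.2 a ha l (mem_PS.2 ⟨hl, hle.trans ?_⟩) hdvd
            have g3 : Real.log N / 2 ≤ Real.log X := by
              have e1 : Real.log N / 2 = Real.log (Real.sqrt N) := by
                rw [Real.log_sqrt (by positivity)]
              rw [e1]
              apply Real.log_le_log (by positivity)
              rw [Real.sqrt_le_left (by positivity), hX]
              nlinarith
            rw [Real.rpow_def_of_pos (by linarith)]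
            apply Real.exp_le_exp.2
            unfold LL
            nlinarith
        rw [if_pos hmem]
        simp only [hind]
        rw [if_pos hi, mul_one]
        exact Phi_le_one _
      · simp only [hind]
        rw [if_neg hi, mul_zero]
        split_ifs <;> norm_num
    refine (sum_le_sum e1).trans ?_
    rw [← sum_filter, sum_const, nsmul_eq_mul, mul_one]
    exact_mod_cast card_le_card (fun n hn => (mem_filter.1 hn).2)
  have s4 := (s1.trans s2).trans s3
  have hcoe : (A.card : ℝ) = ((A.card : ℕ) : ℝ) := rfl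
  refine le_trans ?_ (s4.trans (le_of_eq ?_))
  · -- the lower bound
    have g1 := gT_ge (y := y) hK (le_refl (2 * K ^ 2))
    have g2 : rho y ^ K / 2 * W ≤ G.card := by rw [hGc]; exact g1
    have hρ := rho_pos y
    have hρK : 0 < rho y ^ K := pow_pos hρ _
    have hLLK : 0 < LL X ^ K := pow_pos hL0 _
    have hlogK : 0 < Real.log N ^ K := pow_pos (by linarith) _
    have hU : 0 ≤ c0 * UU K X y := mul_nonneg hc0.le (UU_nonneg K hL0.le y)
    have g3 : rho y ^ K / 2 * W * (c0 * UU K X y) ≤ G.card * (c0 * UU K X y) :=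
      mul_le_mul_of_nonneg_right g2 hU
    refine le_trans ?_ g3
    have g4 : rho y ^ K / 2 * W * (c0 * UU K X y) = c0 / 2 * MPhi X / LL X ^ K := by
      unfold UU
      rw [mul_pow, ← hW]
      field_simp
    rw [g4, hRK]
    have g5 : LL X ^ K ≤ Real.log N ^ K := by
      apply pow_le_pow_left₀ hL0.le
      unfold LL
      have e1 : Real.log X ≤ Real.log N := by
        apply Real.log_le_log hX0
        rw [hX]; linarith
      have e2 : 0 ≤ Real.log X := by
        have : 0 < Real.log X / 200 := hL0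
        linarith
      linarith
    calc c0 / 160 * N / Real.log N ^ K ≤ c0 / 160 * N / LL X ^ K := by gcongr
      _ ≤ c0 / 2 * MPhi X / LL X ^ K := by
          apply div_le_div_of_nonneg_right _ hLLK.le
          have e1 : X / 20 ≤ MPhi X := h3
          rw [hX] at e1 ⊢
          nlinarith
  · rfl

end Pool.Agent.D0H69.TW
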