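import Pool.Agent.D0H69.TW.May

/-!
# Project TW, module 18 (CHN), part 1: the weighted sum
-/

set_option autoImplicit false

open Finset Filter Topology
open scoped ContDiff

namespace Pool.Agent.D0H69.TW

open Pool.Agent.H387R2.MB Pool.Agent.H387R2 Pool.Agent.H378R2

/-- the smooth function -/
noncomputable def f1 : Fin 1 → ℝ → ℝ := fun _ => hs (1 / 4)

/-- the index set -/
def A1 : Finset (Fin (1 + 1) → Fin 1) := {fun _ => 0}

lemma card_A1 : A1.card = 1 := rfl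

lemma II1 : 0 < II f1 A1 := by
  unfold II A1
  rw [sum_singleton, sum_singleton]
  apply prod_pos
  intro j _
  show 0 < DD (hs (1 / 4)) (hs (1 / 4))
  rw [DD_hs_self (by norm_num)]
  exact div_pos gam_pos (by norm_num)

lemma JJ1 : 1 ≤ JJ f1 A1 0 := by
  unfold JJ A1
  rw [sum_singleton, sum_singleton]
  have e : ∀ x : Fin 1, f1 x 0 = 1 := fun _ => hs_at_zero _
  rw [e, one_mul, one_mul, Fin.prod_univ_one]
  show 1 ≤ DD (hs (1 / 4)) (hs (1 / 4))
  rw [DD_hs_self (by norm_num), le_div_iff₀ (by norm_num)]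
  have := gam_ge
  linarith

open Classical in
/-- many `n` with `n + t 0` prime and no small prime factor of both forms -/
theorem pos2 : ∃ δ : ℝ, 0 < δ ∧ δ ≤ 1 / 10 ∧ ∃ c0 : ℝ, 0 < c0 ∧ ∃ z : ℕ, ∀ᶠ X : ℝ in atTop,
    ∀ (W : ℕ) (E : Finset ℕ) (a0 : ℕ) (t : Fin (1 + 1) → ℕ), CS X z W E → Squarefree W → DT E t →
      (∀ j, (a0 + t j).Coprime W) → (∀ j, (t j : ℝ) ≤ Real.sqrt X) →
      (∑ p ∈ E.filter (fun p => ¬ p ∣ W), (1 : ℝ) / p ≤ δ) → (W.totient : ℝ) ≤ 2 * (W * BE E) →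
      c0 * QQ (1 + 1) X W E ≤ ∑ n ∈ Icc 1 ⌊3 * X⌋₊, nu X W a0 n *
        (if (n + t 0).Prime ∧ (∀ j, ∀ p ∈ PS δ X, ¬ p ∣ n + t j) then
          sqw E X f1 A1 (fun j => (n : ℤ) + t j) ^ 2 else 0) := by
  set c : Fin 1 → ℝ := fun _ => 1 / 4 with hcdef
  have hsm : ∀ l, ContDiff ℝ ∞ (f1 l) := fun _ => hs_smooth _
  have hcs : ∀ l, HasCompactSupport (f1 l) := fun _ => hs_compact (by norm_num)
  have hf0 : ∀ l x, c l < x → f1 l x = 0 := fun _ x hx => hs_zero (by norm_num) (hx.le.trans (le_abs_self x))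
  have hc : ∀ l, 0 ≤ c l ∧ c l ≤ 1 / 2 := fun _ => ⟨by norm_num, by norm_num⟩
  have hA : ∀ a ∈ A1, ∑ j, c (a j) ≤ 1 := fun a _ => by
    simp only [hcdef]
    rw [sum_const, card_univ, Fintype.card_fin]
    norm_num
  have hf1 : ∀ l x, |f1 l x| ≤ 1 := fun _ x => hs_abs_le _ x
  set I := II f1 A1 with hIdef
  have hI : 0 < I := II1
  set J := JJ f1 A1 0 with hJdef
  have hJ : 1 ≤ J := JJ1
  have hJ0 : 0 < J := by linarith
  obtain ⟨z2, hS2⟩ := S2low (K0 := 1) f1 c A1 hsm hcs hf0 hc hA hf1 (J / 2) (by positivity)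
  obtain ⟨C, hC0, z3, hnr⟩ := nonrough f1 c A1 hsm hcs hf0 hc hA hf1 hI.le
  set κ : ℝ := J / 1280000 with hκ
  have hκ0 : 0 < κ := by positivity
  set δ : ℝ := min (1 / 10) (κ / (2 * (C + 1))) with hδ
  have hδ0 : 0 < δ := lt_min (by norm_num) (by positivity)
  have hδ1 : δ ≤ 1 / 10 := min_le_left _ _
  have hδC : C * δ ≤ κ / 2 := by
    have h1 : δ ≤ κ / (2 * (C + 1)) := min_le_right _ _
    calc C * δ ≤ (C + 1) * (κ / (2 * (C + 1))) := by
          apply mul_le_mul (by linarith) h1 hδ0.le (by linarith)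
      _ = κ / 2 := by field_simp
  refine ⟨δ, hδ0, hδ1, κ / 2, by positivity, max z2 z3, ?_⟩
  filter_upwards [hS2, hnr δ hδ0 hδ1, BVe_le 1 (1 + 1 + 4), err_small (1 + 1) 1 (J / 3200) (by positivity) (by positivity),
    LPhi_ge, eventually_ge_atTop 16, LL_tendsto.eventually_ge_atTop 1, ev_pow_exp 3 (1 / 700) 1 (by norm_num) |>
      (fun h => Real.tendsto_log_atTop.eventually h)] with X h2 h3 h4 h5 h6 h7 h8 h9
  intro W E a0 t hCS hWsq hDT hcop ht hE1 hBW
  have hX0 : 0 < X := by linarith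
  have hL0 : 0 < LL X := by linarith
  have hW0 : 0 < W := hCS.pos
  have hWr : (0:ℝ) < W := by exact_mod_cast hW0
  have hφ : 0 < (W.totient : ℝ) := by exact_mod_cast Nat.totient_pos.2 hW0
  have hBE : 0 < BE E := BE_pos hCS.gs.pr
  have hWle : (W : ℝ) ≤ Real.exp (Real.log X / 700) := by
    refine hCS.le.trans ?_
    rw [one_mul] at h9
    calc Real.log X ^ 3 ≤ Real.exp (1 / 700 * Real.log X) := h9
      _ = _ := by ring_nf
  have hsqrt : Real.sqrt X ≤ X / 2 := sqrt_half h7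
  have hCW : ∀ z', z' ≤ max z2 z3 → CW X z' W E := fun z' hz' =>
    ⟨(hCS.gs.toGE h8).mono hz', hW0, hWle, hCS.dv⟩
  set Q := QQ (1 + 1) X W E with hQ
  have hMP : 0 ≤ MPhi X := MPhi_nonneg X
  have hQ0 : 0 ≤ Q := by rw [hQ]; unfold QQ; positivity
  obtain ⟨Bc, hBc1, hBc2⟩ := Bc_exists X W hW0
  have s2 := h2 W E a0 t (Real.sqrt X) (hCW z2 (le_max_left _ _)) hDT ht hsqrt hcop Bc hBc2 0
  have s3 := h4 W hWsq hCS.le Bc hBc1
  have s4 := h5 W E (BVe 1 X W Bc) hW0 hCS.le hCS.gs.pr s3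
  have s5 := h3 W E a0 t ⟨hCS.gs.mono (le_max_right _ _), hCS.pos, hCS.le, hCS.dv⟩ hDT hcop hE1
  rw [card_A1, Nat.cast_one, one_pow, one_mul, pow_one] at s2
  set w : ℕ → ℝ := fun n => sqw E X f1 A1 (fun j => (n : ℤ) + t j) ^ 2 with hw
  have hw0 : ∀ n, 0 ≤ w n := fun n => sq_nonneg _
  set err2 := BVe 1 X W Bc + Real.exp (2 * LL X) *
          ((4 * Real.sqrt X) * Real.log (4 * X) + 4 * Real.sqrt X * Real.log (4 * X)) with herr2
  have hl4 := log4X (by linarith : 4 ≤ X)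
  have hl40 : 0 ≤ Real.log (4 * X) := Real.log_nonneg (by linarith)
  -- lower bound for the theta sum
  have s6 : LL X * Q * (J / 1600) - err2 ≤ ∑ n ∈ Icc 1 ⌊3 * X⌋₊, nu X W a0 n * (w n * th (n + t 0)) := by
    refine le_trans ?_ s2
    have e2 : LL X * Q / 800 ≤ LPhi X * (1 / (W.totient : ℝ)) * (1 / (LL X * BE E)) := by
      have e3 : LL X * Q = (MPhi X * (1 / (W * BE E))) * (1 / (LL X * BE E)) := by
        rw [hQ]; unfold QQ
        field_simp
        ring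
      have e4 : MPhi X * (1 / (W * BE E)) ≤ 800 * (LPhi X * (1 / (W.totient : ℝ))) := by
        have e5 : 1 / (W * BE E) ≤ 2 * (1 / (W.totient : ℝ)) := by
          rw [mul_one_div, div_le_div_iff₀ (by positivity) hφ]
          linarith
        have e6 : MPhi X ≤ 400 * LPhi X := by
          have := MPhi_le X (by linarith)
          linarith
        calc MPhi X * (1 / (W * BE E)) ≤ (400 * LPhi X) * (2 * (1 / (W.totient : ℝ))) := by
              apply mul_le_mul e6 e5 (by positivity)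
              linarith
          _ = _ := by ring
      rw [e3]
      have := mul_le_mul_of_nonneg_right e4 (by positivity : 0 ≤ 1 / (LL X * BE E))
      linarith
    have e3 : J - J / 2 = J / 2 := by ring
    rw [e3]
    have e8 := mul_le_mul_of_nonneg_right e2 (by positivity : 0 ≤ J / 2)
    have e9 : LL X * Q / 800 * (J / 2) = LL X * Q * (J / 1600) := by ring
    rw [e9] at e8
    linarith
  -- upper bound
  set S := ∑ n ∈ Icc 1 ⌊3 * X⌋₊, nu X W a0 n * (if (n + t 0).Prime then w n else 0) with hS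
  have hS0 : 0 ≤ S := sum_nonneg fun n _ => mul_nonneg (nu_nonneg _ _ _ _) (by split_ifs; exacts [hw0 n, le_rfl])
  have s7 : ∑ n ∈ Icc 1 ⌊3 * X⌋₊, nu X W a0 n * (w n * th (n + t 0)) ≤ Real.log (4 * X) * S := by
    rw [hS, mul_sum]
    apply sum_le_sum
    intro n hn
    rw [mem_Icc] at hn
    have hnu := nu_nonneg X W a0 n
    have hn3 : (n : ℝ) ≤ 3 * X := (Nat.le_floor_iff (by positivity)).1 hn.2
    have e1 : w n * th (n + t 0) ≤ Real.log (4 * X) * (if (n + t 0).Prime then w n else 0) := by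
      unfold th
      split_ifs with hp
      · rw [mul_comm]
        apply mul_le_mul_of_nonneg_right _ (hw0 n)
        apply Real.log_le_log (by exact_mod_cast hp.pos)
        push_cast
        have := ht 0
        linarith
      · simp
    calc _ ≤ nu X W a0 n * (Real.log (4 * X) * (if (n + t 0).Prime then w n else 0)) :=
          mul_le_mul_of_nonneg_left e1 hnu
      _ = _ := by ring
  have s8 : err2 ≤ J / 3200 * (LL X * Q) := by
    refine le_trans ?_ s4
    rw [one_mul, herr2]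
    have : 0 ≤ Real.log (4 * X) * Real.exp (2 * LL X) := mul_nonneg hl40 (Real.exp_pos _).le
    linarith
  have s11 : κ * Q ≤ S := by
    have e1 : LL X * Q * (J / 3200) ≤ (400 * LL X) * S := by
      have e3 : LL X * Q * (J / 3200) ≤ Real.log (4 * X) * S := by
        have e4 : LL X * Q * (J / 1600) - J / 3200 * (LL X * Q) = LL X * Q * (J / 3200) := by ring
        linarith
      refine e3.trans ?_
      gcongr
    have e2 : Q * (J / 3200) ≤ 400 * S := by
      have : LL X * (Q * (J / 3200)) ≤ LL X * (400 * S) := by linarith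
      exact le_of_mul_le_mul_left this hL0
    rw [hκ]
    linarith
  -- remove the non rough part
  have s12 : S ≤ ∑ n ∈ Icc 1 ⌊3 * X⌋₊, nu X W a0 n *
        (if (n + t 0).Prime ∧ (∀ j, ∀ p ∈ PS δ X, ¬ p ∣ n + t j) then w n else 0) +
      ∑ n ∈ Icc 1 ⌊3 * X⌋₊, ∑ j : Fin (1 + 1), ∑ p ∈ PS δ X,
        nu X W a0 n * (if (p : ℤ) ∣ (n : ℤ) + t j then w n else 0) := by
    rw [hS, ← sum_add_distrib]
    apply sum_le_sum
    intro n _
    have hnu := nu_nonneg X W a0 n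
    have hnn : 0 ≤ ∑ j : Fin (1 + 1), ∑ p ∈ PS δ X, nu X W a0 n * (if (p : ℤ) ∣ (n : ℤ) + t j then w n else 0) := by
      apply sum_nonneg; intro j _
      apply sum_nonneg; intro p _
      apply mul_nonneg hnu
      split_ifs
      · exact hw0 n
      · exact le_rfl
    by_cases h10 : (n + t 0).Prime
    · by_cases h11 : ∀ j, ∀ p ∈ PS δ X, ¬ p ∣ n + t j
      · rw [if_pos h10, if_pos ⟨h10, h11⟩]
        linarith
      · rw [if_pos h10, if_neg (fun h => h11 h.2), mul_zero, zero_add]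
        push Not at h11
        obtain ⟨j, p, hp, hpd⟩ := h11
        have e1 : nu X W a0 n * w n = nu X W a0 n * (if (p : ℤ) ∣ (n : ℤ) + t j then w n else 0) := by
          rw [if_pos]
          have e : ((n + t j : ℕ) : ℤ) = (n : ℤ) + t j := by push_cast; ring
          rw [← e]
          exact Int.natCast_dvd_natCast.2 hpd
        rw [e1]
        have hterm : ∀ (j : Fin (1 + 1)) (p : ℕ), 0 ≤ nu X W a0 n * (if (p : ℤ) ∣ (n : ℤ) + t j then w n else 0) := by
          intro j p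
          apply mul_nonneg hnu
          split_ifs
          · exact hw0 n
          · exact le_rfl
        refine le_trans (single_le_sum (f := fun p : ℕ => nu X W a0 n * (if (p : ℤ) ∣ (n : ℤ) + t j then w n else 0))
          (fun p _ => hterm j p) hp) ?_
        exact single_le_sum (f := fun j => ∑ p ∈ PS δ X, nu X W a0 n * (if (p : ℤ) ∣ (n : ℤ) + t j then w n else 0))
          (fun j _ => sum_nonneg fun p _ => hterm j p) (mem_univ j)
    · rw [if_neg h10, if_neg (fun h => h10 h.1), mul_zero, zero_add]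
      exact hnn
  have s13 : C * δ * Q ≤ κ / 2 * Q := mul_le_mul_of_nonneg_right hδC hQ0
  have s5' : ∑ n ∈ Icc 1 ⌊3 * X⌋₊, ∑ j : Fin (1 + 1), ∑ p ∈ PS δ X,
        nu X W a0 n * (if (p : ℤ) ∣ (n : ℤ) + t j then w n else 0) ≤ C * δ * Q := s5
  linarith

open Classical in
/-- the same without weight -/
theorem pos3 : ∃ δ : ℝ, 0 < δ ∧ δ ≤ 1 / 10 ∧ ∃ c0 : ℝ, 0 < c0 ∧ ∃ z : ℕ, ∀ᶠ X : ℝ in atTop,
    ∀ (W : ℕ) (E : Finset ℕ) (a0 : ℕ) (t : Fin (1 + 1) → ℕ), CS X z W E → Squarefree W → DT E t →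
      (∀ j, (a0 + t j).Coprime W) → (∀ j, (t j : ℝ) ≤ Real.sqrt X) →
      (∑ p ∈ E.filter (fun p => ¬ p ∣ W), (1 : ℝ) / p ≤ δ) → (W.totient : ℝ) ≤ 2 * (W * BE E) →
      c0 * QQ (1 + 1) X W E ≤ ∑ n ∈ Icc 1 ⌊3 * X⌋₊, nu X W a0 n *
        (if (n + t 0).Prime ∧ (∀ j, Rg δ X (n + t j)) then 1 else 0) := by
  obtain ⟨δ, hδ, hδ1, c0, hc0, z, h⟩ := pos2
  set D : ℝ := ((A1.card : ℝ) * (2 ^ ⌈400 / δ⌉₊) ^ (1 + 1)) ^ 2 + 1 with hD
  have hD0 : 0 < D := by positivity
  refine ⟨δ, hδ, hδ1, c0 / D, by positivity, z, ?_⟩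
  filter_upwards [h, eventually_ge_atTop 4, LL_tendsto.eventually_ge_atTop 1] with X h1 h4 h6
  intro W E a0 t hCS hWsq hDT hcop ht hE1 hBW
  have h2 := h1 W E a0 t hCS hWsq hDT hcop ht hE1 hBW
  rw [div_mul_eq_mul_div, div_le_iff₀ hD0, sum_mul]
  refine h2.trans ?_
  apply sum_le_sum
  intro n hn
  rw [mem_Icc] at hn
  have hn3 : (n : ℝ) ≤ 3 * X := (Nat.le_floor_iff (by linarith)).1 hn.2
  have hnu := nu_nonneg X W a0 n
  rw [mul_assoc]
  apply mul_le_mul_of_nonneg_left _ hnu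
  by_cases hc : (n + t 0).Prime ∧ (∀ j, ∀ p ∈ PS δ X, ¬ p ∣ n + t j)
  · have hc' : (n + t 0).Prime ∧ (∀ j, Rg δ X (n + t j)) := hc
    rw [if_pos hc, if_pos hc', one_mul]
    have hsq : Real.sqrt X ≤ X := by
      rw [Real.sqrt_le_left (by linarith)]
      nlinarith
    have hV : ∀ (j : Fin (1 + 1)) (l : Fin 1), |VVm E (Pool.Agent.H378R2.RR X) (LL X) (f1 l) ((n : ℤ) + t j)| ≤ 2 ^ ⌈400 / δ⌉₊ := by
      intro j l
      have e : (n : ℤ) + t j = ((n + t j : ℕ) : ℤ) := by push_cast; ring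
      rw [e]
      apply VV_rg_le hδ h4 h6 (by omega) _ (hc'.2 j) E _ _ (fun x => hs_abs_le _ x)
      push_cast
      have := ht j
      linarith
    have habs : |sqw E X f1 A1 (fun j => (n : ℤ) + t j)| ≤ (A1.card : ℝ) * (2 ^ ⌈400 / δ⌉₊) ^ (1 + 1) := by
      unfold sqw
      refine (abs_sum_le_sum_abs _ _).trans ?_
      rw [← nsmul_eq_mul]
      apply sum_le_card_nsmul
      intro a _
      rw [abs_prod]
      calc ∏ j : Fin (1 + 1), |VVm E (Pool.Agent.H378R2.RR X) (LL X) (f1 (a j)) ((n : ℤ) + t j)| ≤ ∏ _j : Fin (1 + 1), (2:ℝ) ^ ⌈400 / δ⌉₊ :=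
            Finset.prod_le_prod (fun j _ => abs_nonneg _) (fun j _ => hV j (a j))
        _ = _ := by rw [prod_const, card_univ, Fintype.card_fin]
    have hsqw : sqw E X f1 A1 (fun j => (n : ℤ) + t j) ^ 2 ≤ ((A1.card : ℝ) * (2 ^ ⌈400 / δ⌉₊) ^ (1 + 1)) ^ 2 := by
      rw [← sq_abs]
      exact pow_le_pow_left₀ (abs_nonneg _) habs 2
    rw [hD]
    linarith
  · have hc' : ¬ ((n + t 0).Prime ∧ (∀ j, Rg δ X (n + t j))) := hc
    rw [if_neg hc, if_neg hc', zero_mul]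

end Pool.Agent.D0H69.TW
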